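import Pool.Agent.helper96.S5.SpecR

set_option autoImplicit false

namespace S5

open PF

theorem CTX_fin (E : Set ℕ) (h : E.Finite) : ComputablePred fun z => z ∈ E := by
  induction E, h using Set.Finite.induction_on with
  | empty => exact cp_const False
  | @insert a s _ _ ih =>
    have h1 : ComputablePred fun z : ℕ => z = a ∨ z ∈ s :=
      cp_or (cp_eq Computable.id (Computable.const a)) ih
    exact h1

theorem CTX_row (hMXE : MXE_stmt) (hNCE : NCE_stmt) (hENU : ENU_stmt) (hSMB : SMB_stmt) :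
    CTX_stmt := by
  intro m T hm hT hTm
  obtain ⟨E, hE, hci, hmax⟩ := hMXE
  have hne := hNCE E hci hmax
  have hinf : E.Infinite := fun hfin => hne (CTX_fin E hfin)
  obtain ⟨f, hf1, hf2, hf3⟩ := hENU E hE hinf
  obtain ⟨Nt, h1, h2, h3, h4⟩ := hSMB
  refine ⟨⟨f, Nt, m, T⟩, ?_, rfl, rfl⟩
  have hEE : (Cx.mk f Nt m T).E = E := hf3
  constructor
  · exact hf1
  · exact hf2
  · rw [hEE]; exact hmax
  · rw [hEE]; exact hci
  · rw [hEE]; exact hne
  · exact h1
  · exact h2
  · exact h3
  · exact h4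
  · exact hm
  · exact hT
  · exact hTm

end S5
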