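import Pool.Agent.helper96.S5.SpecV

set_option autoImplicit false

namespace S5

open PF

noncomputable section

open Classical

theorem JSK_row : JSK_stmt := by
  intro X p hp F hF hFN
  have hu : Computable fun x : ℕ => x.unpair.1 :=
    (Primrec.fst.comp Primrec.unpair).to_comp
  have hc : ComputablePred fun x : ℕ => x.unpair.1 ∈ F :=
    cp_comp (f := fun x : ℕ => x.unpair.1) hu (fin_cp hF)
  have h : REPred (fun x => x ∈ {x : ℕ | x.unpair.1 ∈ F}) := hc.to_re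
  have hn : ComputablePred fun x : ℕ => ¬ x.unpair.1 ∈ F := cp_not hc
  have h' : REPred (fun x => x ∈ {x : ℕ | ¬ x.unpair.1 ∈ F}) := hn.to_re
  refine ⟨h, (jm_iff hp ⟨{x : ℕ | x.unpair.1 ∈ F}, h⟩).2
    ⟨⟨{x : ℕ | ¬ x.unpair.1 ∈ F}, h'⟩, ⟨{x : ℕ | x.unpair.1 ∈ F}, h⟩, ?_, ?_, ?_, ?_, ?_⟩⟩
  · refine Set.Finite.subset Set.finite_empty ?_
    rintro x ⟨h1, h2⟩
    exact h2 h1
  · refine Set.Finite.subset Set.finite_empty ?_
    rintro x ⟨h1, h2⟩
    exact h2 h1
  · refine Set.Finite.subset Set.finite_empty ?_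
    rintro x ⟨h1, h2⟩
    exact hFN _ h1 h2
  · refine Set.Finite.subset Set.finite_empty ?_
    rintro x ⟨h1, h2⟩
    exact h2 (Or.inl h1)
  · refine Set.Finite.subset Set.finite_empty ?_
    rintro x ⟨h1, h2⟩
    exact h2 h1

end

end S5
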